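import Pool.Agent.Run7.h571.ToricT

/-! Partial fractions: the products with a half-integral shift. -/

namespace Run7.H571.Toric

open Polynomial Finset

/-- the Legendre-type comparison polynomial has these coefficients -/
noncomputable def Lam (β : ℝ) (d : ℕ) (k : ℕ) : ℝ := ∏ m ∈ range d, ((k : ℝ) + (β + m))

noncomputable def E (β : ℝ) (d p q k : ℕ) : ℝ :=
  Lam β (d + 1) k / (((k : ℝ) + (β + p)) * ((k : ℝ) + (β + q)))

noncomputable def rho (β : ℝ) (d p k : ℕ) : ℝ :=
  (∏ m ∈ range p, ((k : ℝ) + (β + m))) *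
    ∏ m ∈ range (d - 1 - p), ((k : ℝ) + (β + p + m + 3 / 2))

theorem prod_split (f : ℕ → ℝ) (i r : ℕ) : ∏ m ∈ range (i + 1 + r), f m =
    (∏ m ∈ range i, f m) * (f i * ∏ m ∈ range r, f (i + 1 + m)) := by
  rw [prod_range_add, prod_range_succ, mul_assoc]

theorem pickW (β : ℝ) (hβ : 0 < β) (d i : ℕ) (hi : i < d) :
    Pick (T d (E β d i (i + 1))) (T d (Lam β d)) := by
  obtain ⟨r, hr⟩ : ∃ r, d = i + 1 + r := ⟨d - (i + 1), by omega⟩
  have h := pick_prod d _ _ (pick_pair d (by omega) (β + i) (by positivity) r)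
    (fun m => β + m) i (fun m _ => by positivity)
  rw [T_congr d (E β d i (i + 1)) (fun k => (∏ m ∈ range i, ((k : ℝ) + (β + m))) *
      ∏ m ∈ range r, ((k : ℝ) + (β + i + 2 + m))) (fun k => ?_),
    T_congr d (Lam β d) (fun k => (∏ m ∈ range i, ((k : ℝ) + (β + m))) *
      (((k : ℝ) + (β + i)) * ∏ m ∈ range r, ((k : ℝ) + (β + i + 1 + m)))) (fun k => ?_)]
  · exact h
  · unfold Lam
    rw [hr, prod_split]
    congr 2
    apply prod_congr rfl
    intro m _
    push_cast
    ring
  · unfold E Lam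
    have h1 : (k : ℝ) + (β + i) ≠ 0 := by positivity
    have h2 : (k : ℝ) + (β + ((i + 1 : ℕ) : ℝ)) ≠ 0 := by positivity
    rw [show d + 1 = i + 1 + (r + 1) by omega, prod_split, prod_range_succ']
    rw [div_eq_iff (mul_ne_zero h1 h2)]
    have h3 : ∏ m ∈ range r, ((k : ℝ) + (β + ((i + 1 + (m + 1) : ℕ) : ℝ))) =
        ∏ m ∈ range r, ((k : ℝ) + (β + i + 2 + m)) := by
      apply prod_congr rfl
      intro m _
      push_cast
      ring
    rw [h3]
    push_cast
    ring

theorem pickE (β : ℝ) (hβ : 0 < β) (d p q : ℕ) (hpq : p + 1 ≤ q) (hq : q ≤ d) :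
    Pick (T d (E β d p q)) (T d (Lam β d)) := by
  induction q, hpq using Nat.le_induction with
  | base => exact pickW β hβ d p (by omega)
  | succ q hpq ih =>
    have h1 := ih (by omega)
    have h2 := pickW β hβ d q (by omega)
    have hc : (0 : ℝ) < (q : ℝ) - p := by
      have : (p : ℝ) + 1 ≤ q := by exact_mod_cast hpq
      linarith
    have h3 := (h1.smul (r := ((q : ℝ) - p) / ((q : ℝ) + 1 - p))
      (div_pos hc (by linarith))).add
      (h2.smul (r := 1 / ((q : ℝ) + 1 - p)) (div_pos one_pos (by linarith)))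
    rw [← T_smul, ← T_smul, ← T_add] at h3
    rw [T_congr d (E β d p (q + 1)) _ (fun k => ?_)]
    · exact h3
    · unfold E
      have e1 : (k : ℝ) + (β + p) ≠ 0 := by positivity
      have e2 : (k : ℝ) + (β + q) ≠ 0 := by positivity
      have e3 : (k : ℝ) + (β + (q + 1)) ≠ 0 := by positivity
      have e4 : (q : ℝ) + 1 - p ≠ 0 := by linarith
      push_cast
      field_simp
      ring

theorem partial_frac (r : ℕ) : ∃ l : ℕ → ℝ, (∀ m, m ≤ r → 0 < l m) ∧ ∀ x : ℝ, 0 < x →
    (∏ m ∈ range r, (x + m + 1 / 2)) / (∏ m ∈ range (r + 1), (x + m)) =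
      ∑ m ∈ range (r + 1), l m / (x + m) := by
  induction r with
  | zero =>
    refine ⟨fun _ => 1, fun _ _ => one_pos, fun x _ => ?_⟩
    simp
  | succ r ih =>
    obtain ⟨l, hl, h⟩ := ih
    refine ⟨fun m => if m ≤ r then l m * (1 - 1 / (2 * ((r : ℝ) + 1 - m))) else
      ∑ i ∈ range (r + 1), l i * (1 / (2 * ((r : ℝ) + 1 - i))), ?_, ?_⟩
    · intro m _
      beta_reduce
      by_cases h1 : m ≤ r
      · rw [if_pos h1]
        have h2 : (m : ℝ) ≤ r := by exact_mod_cast h1
        apply mul_pos (hl m h1)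
        have h3 : 1 / (2 * ((r : ℝ) + 1 - m)) ≤ 1 / 2 := by
          apply one_div_le_one_div_of_le <;> linarith
        linarith
      · rw [if_neg h1]
        apply sum_pos
        · intro i hi
          rw [mem_range] at hi
          have h2 : (i : ℝ) ≤ r := by exact_mod_cast (by omega : i ≤ r)
          apply mul_pos (hl i (by omega))
          apply div_pos one_pos
          linarith
        · exact ⟨0, by simp⟩
    · intro x hx
      have e0 : x + (r + 1 : ℝ) ≠ 0 := by positivity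
      have h1 : (∏ m ∈ range (r + 1), (x + m + 1 / 2)) / (∏ m ∈ range (r + 1 + 1), (x + m)) =
          ((∏ m ∈ range r, (x + m + 1 / 2)) / (∏ m ∈ range (r + 1), (x + m))) *
            ((x + r + 1 / 2) / (x + (r + 1 : ℝ))) := by
        rw [prod_range_succ (fun m : ℕ => x + (m : ℝ) + 1 / 2) r,
          prod_range_succ (fun m : ℕ => x + (m : ℝ)) (r + 1)]
        push_cast
        rw [mul_div_mul_comm]
      rw [h1, h x hx, sum_range_succ _ (r + 1)]
      beta_reduce
      rw [if_neg (by omega : ¬ r + 1 ≤ r)]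
      have h2 : ∀ m ∈ range (r + 1), (if m ≤ r then l m * (1 - 1 / (2 * ((r : ℝ) + 1 - m))) else
          ∑ i ∈ range (r + 1), l i * (1 / (2 * ((r : ℝ) + 1 - i)))) / (x + m) =
          l m * (1 - 1 / (2 * ((r : ℝ) + 1 - m))) / (x + m) := by
        intro m hm
        rw [mem_range] at hm
        rw [if_pos (by omega)]
      rw [sum_congr rfl h2, sum_mul, sum_div, ← sum_add_distrib]
      apply sum_congr rfl
      intro m hm
      rw [mem_range] at hm
      have h3 : (m : ℝ) ≤ r := by exact_mod_cast (by omega : m ≤ r)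
      have e1 : x + (m : ℝ) ≠ 0 := by positivity
      have e2 : (r : ℝ) + 1 - m ≠ 0 := by linarith
      push_cast
      field_simp
      ring

theorem pick_sum (d : ℕ) (B : ℝ[X]) (l : ℕ → ℝ) (φ : ℕ → ℕ → ℝ) (r : ℕ)
    (hl : ∀ m, m ≤ r → 0 < l m) (h : ∀ m, m ≤ r → Pick (T d (φ m)) B) :
    Pick (T d (fun k => ∑ m ∈ range (r + 1), l m * φ m k)) B := by
  induction r with
  | zero =>
    have h1 := (h 0 le_rfl).smul (hl 0 le_rfl)
    rw [← T_smul] at h1
    simpa using h1
  | succ r ih =>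
    have h1 := (ih (fun m hm => hl m (by omega)) (fun m hm => h m (by omega))).add
      ((h (r + 1) le_rfl).smul (hl (r + 1) le_rfl))
    rw [← T_smul, ← T_add] at h1
    rw [T_congr d _ _ (fun k => sum_range_succ (fun m => l m * φ m k) (r + 1))]
    exact h1

theorem pick_rho (β : ℝ) (hβ : 0 < β) (d p : ℕ) (hp : p < d) :
    Pick (T d (rho β d p)) (T d (Lam β d)) := by
  obtain ⟨r, hr⟩ : ∃ r, d = p + 1 + r := ⟨d - (p + 1), by omega⟩
  obtain ⟨l, hl, h⟩ := partial_frac r
  have h1 := pick_sum d (T d (Lam β d)) l (fun m => E β d p (p + 1 + m)) r hl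
    (fun m hm => pickE β hβ d p (p + 1 + m) (by omega) (by omega))
  rw [T_congr d (rho β d p) _ (fun k => ?_)]
  · exact h1
  · have hx : 0 < (k : ℝ) + (β + p + 1) := by positivity
    have h2 := h _ hx
    have e1 : (k : ℝ) + (β + p) ≠ 0 := by positivity
    have e2 : ∏ m ∈ range (r + 1), ((k : ℝ) + (β + p + 1) + m) ≠ 0 :=
      prod_ne_zero_iff.mpr fun m _ => by positivity
    rw [div_eq_iff e2] at h2
    unfold rho
    rw [show d - 1 - p = r by omega]
    have h3 : ∏ m ∈ range r, ((k : ℝ) + (β + p + m + 3 / 2)) =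
        ∏ m ∈ range r, ((k : ℝ) + (β + p + 1) + m + 1 / 2) := by
      apply prod_congr rfl
      intro m _
      ring
    rw [h3, h2, sum_mul, mul_sum]
    apply sum_congr rfl
    intro m _
    unfold E Lam
    rw [show d + 1 = p + 1 + (r + 1) by omega, prod_split]
    have h4 : ∏ m ∈ range (r + 1), ((k : ℝ) + (β + ((p + 1 + m : ℕ) : ℝ))) =
        ∏ m ∈ range (r + 1), ((k : ℝ) + (β + p + 1) + m) := by
      apply prod_congr rfl
      intro m _
      push_cast
      ring
    rw [h4]
    have e3 : (k : ℝ) + (β + p + 1) + m ≠ 0 := by positivity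
    have e4 : (k : ℝ) + (β + ((p + 1 + m : ℕ) : ℝ)) = (k : ℝ) + (β + p + 1) + m := by
      push_cast
      ring
    rw [e4]
    field_simp

end Run7.H571.Toric
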