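import Pool.Agent.Run7.h571.ToricE
import Pool.Agent.Results.MP_141d57_co.GContribRealRooted

/-! The toric g-contribution polynomials in the variable `t = -1/(x-1)`. -/

namespace Run7.H571.Toric

open Polynomial Finset
open Pool.Agent.Results.MP_141d57_co.GContribRealRooted

/-- coefficients, `n = 2 d + e` -/
noncomputable def cc (d e j i : ℕ) : ℝ :=
  ((catalan (d + e + i - j) * (d + e + i).choose (d - i) : ℕ) : ℝ)

theorem T_congr' (d : ℕ) (φ ψ : ℕ → ℝ) (h : ∀ k, k ≤ d → φ k = ψ k) : T d φ = T d ψ := by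
  unfold T
  apply sum_congr rfl
  intro k hk
  rw [mem_range] at hk
  rw [h k (by omega)]

theorem catalan_succ (m : ℕ) : (m + 2) * catalan (m + 1) = 2 * (2 * m + 1) * catalan m := by
  have h1 := succ_mul_catalan_eq_centralBinom (m + 1)
  have h2 := Nat.succ_mul_centralBinom_succ m
  have h3 := succ_mul_catalan_eq_centralBinom m
  have h4 : (m + 1) * ((m + 2) * catalan (m + 1)) = (m + 1) * (2 * (2 * m + 1) * catalan m) := by
    rw [show (m + 2) * catalan (m + 1) = (m + 1 + 1) * catalan (m + 1) by ring, h1, h2, ← h3]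
    ring
  exact Nat.eq_of_mul_eq_mul_left (by omega) h4

theorem choose_rel (M a : ℕ) : (M + 1).choose a * ((M - a) * (M + 1 - a)) =
    M.choose (a + 1) * ((M + 1) * (a + 1)) := by
  have h1 := Nat.choose_succ_right_eq M a
  have h2 := Nat.choose_mul_succ_eq M a
  calc (M + 1).choose a * ((M - a) * (M + 1 - a)) =
      ((M + 1).choose a * (M + 1 - a)) * (M - a) := by ring
    _ = (M.choose a * (M - a)) * (M + 1) := by rw [← h2]; ring
    _ = _ := by rw [← h1]; ring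

theorem cc_rec (d e j i : ℕ) (hj : j ≤ d) (hi : i < d) :
    cc d e j (i + 1) * (((d + e - j : ℝ) + i + 2) * ((2 * i + e + 1) * (2 * i + e + 2))) =
    cc d e j i * (2 * (2 * (d + e - j : ℝ) + 2 * i + 1) * ((d + e + i + 1) * (d - i))) := by
  obtain ⟨a, ha⟩ : ∃ a, d = i + 1 + a := ⟨d - (i + 1), by omega⟩
  have h1 := catalan_succ (d + e + i - j)
  have h2 := choose_rel (d + e + i) a
  unfold cc
  rw [show d + e + (i + 1) - j = d + e + i - j + 1 by omega,
    show d + e + (i + 1) = d + e + i + 1 by ring,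
    show d - (i + 1) = a by omega, show d - i = a + 1 by omega]
  have e1 : ((d + e + i - j : ℕ) : ℝ) = (d : ℝ) + e + i - j := by
    rw [Nat.cast_sub (by omega)]
    push_cast
    ring
  have e2 : (((d + e + i - a : ℕ)) : ℝ) = 2 * i + e + 1 := by
    rw [show d + e + i - a = 2 * i + e + 1 by omega]
    push_cast
    ring
  have e3 : (((d + e + i + 1 - a : ℕ)) : ℝ) = 2 * i + e + 2 := by
    rw [show d + e + i + 1 - a = 2 * i + e + 2 by omega]
    push_cast
    ring
  have e4 : (d : ℝ) - i = a + 1 := by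
    rw [ha]
    push_cast
    ring
  have h1' : (((d + e + i - j + 2) * catalan (d + e + i - j + 1) : ℕ) : ℝ) =
      ((2 * (2 * (d + e + i - j) + 1) * catalan (d + e + i - j) : ℕ) : ℝ) := by
    rw [h1]
  have h2' : (((d + e + i + 1).choose a * ((d + e + i - a) * (d + e + i + 1 - a)) : ℕ) : ℝ) =
      (((d + e + i).choose (a + 1) * ((d + e + i + 1) * (a + 1)) : ℕ) : ℝ) := by
    rw [h2]
  rw [Nat.cast_mul, Nat.cast_mul, e2, e3] at h2'
  rw [e4]
  rw [Nat.cast_mul, Nat.cast_add, e1] at h1'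
  push_cast at h1' h2' ⊢
  rw [e1] at h1'
  calc _ = (((d : ℝ) + e + i - j + 2) * (catalan (d + e + i - j + 1) : ℝ)) *
        (((d + e + i + 1).choose a : ℝ) * ((2 * i + e + 1) * (2 * i + e + 2))) := by ring
    _ = _ := by rw [h1', h2']; ring

theorem poch_shift (x : ℝ) (r : ℕ) : (∏ m ∈ range r, (x + 1 + m)) * x =
    (∏ m ∈ range r, (x + m)) * (x + r) := by
  rw [← prod_range_succ (fun m : ℕ => x + (m : ℝ)) r, prod_range_succ']
  rw [Nat.cast_zero, add_zero]
  congr 1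
  apply prod_congr rfl
  intro m _
  push_cast
  ring

theorem rho_rec (d e p i : ℕ) (he : e ≤ 1) (hp : p < d) (hi : i < d) :
    (rho ((e : ℝ) + 1 / 2) d p (i + 1) * (d.choose (i + 1) : ℝ)) *
      (((p + e : ℝ) + i + 2) * ((2 * i + e + 1) * (2 * i + e + 2))) =
    (rho ((e : ℝ) + 1 / 2) d p i * (d.choose i : ℝ)) *
      (2 * (2 * (p + e : ℝ) + 2 * i + 1) * ((d + e + i + 1) * (d - i))) := by
  have h1 : (d.choose (i + 1) : ℝ) * ((i : ℝ) + 1) = (d.choose i : ℝ) * ((d : ℝ) - i) := by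
    have h2 := Nat.choose_succ_right_eq d i
    have h3 : ((d.choose (i + 1) * (i + 1) : ℕ) : ℝ) = ((d.choose i * (d - i) : ℕ) : ℝ) := by
      rw [h2]
    push_cast [Nat.cast_sub hi.le] at h3 ⊢
    linarith
  have hA := poch_shift ((i : ℝ) + ((e : ℝ) + 1 / 2)) p
  have hB := poch_shift ((i : ℝ) + ((e : ℝ) + 1 / 2 + p + 3 / 2)) (d - 1 - p)
  have e1 : ((d - 1 - p : ℕ) : ℝ) = (d : ℝ) - 1 - p := by
    rw [Nat.cast_sub (by omega), Nat.cast_sub (by omega)]
    simp
  rw [e1] at hB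
  have r1 : rho ((e : ℝ) + 1 / 2) d p (i + 1) =
      (∏ m ∈ range p, ((i : ℝ) + ((e : ℝ) + 1 / 2) + 1 + m)) *
      ∏ m ∈ range (d - 1 - p), ((i : ℝ) + ((e : ℝ) + 1 / 2 + p + 3 / 2) + 1 + m) := by
    unfold rho
    congr 1
    · apply prod_congr rfl
      intro m _
      push_cast
      ring
    · apply prod_congr rfl
      intro m _
      push_cast
      ring
  have r2 : rho ((e : ℝ) + 1 / 2) d p i =
      (∏ m ∈ range p, ((i : ℝ) + ((e : ℝ) + 1 / 2) + m)) *
      ∏ m ∈ range (d - 1 - p), ((i : ℝ) + ((e : ℝ) + 1 / 2 + p + 3 / 2) + m) := by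
    unfold rho
    congr 1
    · apply prod_congr rfl
      intro m _
      ring
    · apply prod_congr rfl
      intro m _
      ring
  rw [r1, r2]
  set A1 := ∏ m ∈ range p, ((i : ℝ) + ((e : ℝ) + 1 / 2) + 1 + m)
  set A0 := ∏ m ∈ range p, ((i : ℝ) + ((e : ℝ) + 1 / 2) + m)
  set B1 := ∏ m ∈ range (d - 1 - p), ((i : ℝ) + ((e : ℝ) + 1 / 2 + p + 3 / 2) + 1 + m)
  set B0 := ∏ m ∈ range (d - 1 - p), ((i : ℝ) + ((e : ℝ) + 1 / 2 + p + 3 / 2) + m)
  have h4 : ((2 * i + e + 1) * (2 * i + e + 2) : ℝ) =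
      4 * ((i : ℝ) + 1) * ((i : ℝ) + ((e : ℝ) + 1 / 2)) := by
    rcases Nat.le_one_iff_eq_zero_or_eq_one.mp he with h | h
    · subst h
      push_cast
      ring
    · subst h
      push_cast
      ring
  rw [h4]
  calc _ = 4 * (A1 * ((i : ℝ) + ((e : ℝ) + 1 / 2))) *
        (B1 * ((i : ℝ) + ((e : ℝ) + 1 / 2 + p + 3 / 2))) *
        ((d.choose (i + 1) : ℝ) * ((i : ℝ) + 1)) := by ring
    _ = _ := by rw [hA, hB, h1]; ring

theorem catalan_pos (m : ℕ) : 0 < catalan m := by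
  have h := succ_mul_catalan_eq_centralBinom m
  have h2 := Nat.centralBinom_pos m
  rcases Nat.eq_zero_or_pos (catalan m) with h4 | h4
  · rw [h4] at h
    omega
  · exact h4

theorem cc_pos (d e j : ℕ) : 0 < cc d e j 0 := by
  unfold cc
  have h1 := catalan_pos (d + e + 0 - j)
  have h2 : 0 < (d + e + 0).choose (d - 0) := Nat.choose_pos (by omega)
  exact_mod_cast Nat.mul_pos h1 h2

theorem rho_pos (β : ℝ) (hβ : 0 < β) (d p i : ℕ) : 0 < rho β d p i := by
  unfold rho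
  apply mul_pos
  · exact prod_pos fun m _ => by positivity
  · exact prod_pos fun m _ => by positivity

theorem cc_rho (d e j : ℕ) (he : e ≤ 1) (hj : 1 ≤ j) (hj2 : j ≤ d) (i : ℕ) (hi : i ≤ d) :
    cc d e j i * rho ((e : ℝ) + 1 / 2) d (d - j) 0 =
      cc d e j 0 * (rho ((e : ℝ) + 1 / 2) d (d - j) i * (d.choose i : ℝ)) := by
  induction i with
  | zero => simp
  | succ i ih =>
    have h1 := ih (by omega)
    have h2 := cc_rec d e j i hj2 (by omega)
    have h3 := rho_rec d e (d - j) i he (by omega) (by omega)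
    have e1 : (((d - j : ℕ) : ℝ) + e) = (d : ℝ) + e - j := by
      rw [Nat.cast_sub hj2]
      ring
    rw [e1] at h3
    have hX : ((d + e - j : ℝ) + i + 2) * ((2 * i + e + 1) * (2 * i + e + 2)) ≠ 0 := by
      have : (j : ℝ) ≤ d := by exact_mod_cast hj2
      have h4 : 0 < (d + e - j : ℝ) + i + 2 := by
        have h5 : (0 : ℝ) ≤ e := by positivity
        have h6 : (0 : ℝ) ≤ i := by positivity
        linarith
      positivity
    apply mul_right_cancel₀ hX
    calc _ = (cc d e j (i + 1) * (((d + e - j : ℝ) + i + 2) *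
          ((2 * i + e + 1) * (2 * i + e + 2)))) * rho ((e : ℝ) + 1 / 2) d (d - j) 0 := by ring
      _ = (cc d e j i * rho ((e : ℝ) + 1 / 2) d (d - j) 0) *
          (2 * (2 * (d + e - j : ℝ) + 2 * i + 1) * ((d + e + i + 1) * (d - i))) := by
        rw [h2]; ring
      _ = cc d e j 0 * ((rho ((e : ℝ) + 1 / 2) d (d - j) i * (d.choose i : ℝ)) *
          (2 * (2 * (d + e - j : ℝ) + 2 * i + 1) * ((d + e + i + 1) * (d - i)))) := by
        rw [h1]; ring
      _ = _ := by rw [← h3]; ring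

theorem Lam_rec (d e i : ℕ) (he : e ≤ 1) (hi : i < d) :
    (Lam ((e : ℝ) + 1 / 2) d (i + 1) * (d.choose (i + 1) : ℝ)) *
      ((2 * i + e + 1) * (2 * i + e + 2)) =
    (Lam ((e : ℝ) + 1 / 2) d i * (d.choose i : ℝ)) *
      (2 * (2 * (d + e : ℝ) + 2 * i + 1) * (d - i)) := by
  have h1 : (d.choose (i + 1) : ℝ) * ((i : ℝ) + 1) = (d.choose i : ℝ) * ((d : ℝ) - i) := by
    have h2 := Nat.choose_succ_right_eq d i
    have h3 : ((d.choose (i + 1) * (i + 1) : ℕ) : ℝ) = ((d.choose i * (d - i) : ℕ) : ℝ) := by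
      rw [h2]
    push_cast [Nat.cast_sub hi.le] at h3 ⊢
    linarith
  have hA := poch_shift ((i : ℝ) + ((e : ℝ) + 1 / 2)) d
  have r1 : Lam ((e : ℝ) + 1 / 2) d (i + 1) =
      ∏ m ∈ range d, ((i : ℝ) + ((e : ℝ) + 1 / 2) + 1 + m) := by
    unfold Lam
    apply prod_congr rfl
    intro m _
    push_cast
    ring
  have r2 : Lam ((e : ℝ) + 1 / 2) d i =
      ∏ m ∈ range d, ((i : ℝ) + ((e : ℝ) + 1 / 2) + m) := by
    unfold Lam
    apply prod_congr rfl
    intro m _
    ring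
  rw [r1, r2]
  have h4 : ((2 * i + e + 1) * (2 * i + e + 2) : ℝ) =
      4 * ((i : ℝ) + 1) * ((i : ℝ) + ((e : ℝ) + 1 / 2)) := by
    rcases Nat.le_one_iff_eq_zero_or_eq_one.mp he with h | h
    · subst h
      push_cast
      ring
    · subst h
      push_cast
      ring
  rw [h4]
  set A1 := ∏ m ∈ range d, ((i : ℝ) + ((e : ℝ) + 1 / 2) + 1 + m)
  set A0 := ∏ m ∈ range d, ((i : ℝ) + ((e : ℝ) + 1 / 2) + m)
  calc _ = 4 * (A1 * ((i : ℝ) + ((e : ℝ) + 1 / 2))) *
        ((d.choose (i + 1) : ℝ) * ((i : ℝ) + 1)) := by ring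
    _ = _ := by rw [hA, h1]; ring

theorem Lam_pos (β : ℝ) (hβ : 0 < β) (d i : ℕ) : 0 < Lam β d i := by
  unfold Lam
  exact prod_pos fun m _ => by positivity

theorem cc_Lam (d e : ℕ) (he : e ≤ 1) (i : ℕ) (hi : i ≤ d) :
    (((i : ℝ) + (d + e + 1)) * cc d e 0 i) * Lam ((e : ℝ) + 1 / 2) d 0 =
      ((d + e + 1 : ℝ) * cc d e 0 0) * (Lam ((e : ℝ) + 1 / 2) d i * (d.choose i : ℝ)) := by
  induction i with
  | zero => simp
  | succ i ih =>
    have h1 := ih (by omega)
    have h2 := cc_rec d e 0 i (by omega) (by omega)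
    have h3 := Lam_rec d e i he (by omega)
    have hX : ((2 * i + e + 1) * (2 * i + e + 2) : ℝ) ≠ 0 := by positivity
    rw [Nat.cast_zero, sub_zero] at h2
    apply mul_right_cancel₀ hX
    calc _ = (cc d e 0 (i + 1) * (((d + e : ℝ) + i + 2) *
          ((2 * i + e + 1) * (2 * i + e + 2)))) * Lam ((e : ℝ) + 1 / 2) d 0 := by
          push_cast; ring
      _ = ((((i : ℝ) + (d + e + 1)) * cc d e 0 i) * Lam ((e : ℝ) + 1 / 2) d 0) *
          (2 * (2 * (d + e : ℝ) + 2 * i + 1) * (d - i)) := by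
        rw [h2]; ring
      _ = ((d + e + 1 : ℝ) * cc d e 0 0) * ((Lam ((e : ℝ) + 1 / 2) d i * (d.choose i : ℝ)) *
          (2 * (2 * (d + e : ℝ) + 2 * i + 1) * (d - i))) := by
        rw [h1]; ring
      _ = _ := by rw [← h3]; ring

end Run7.H571.Toric
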