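import Pool.Agent.Run7.h571.ToricG

/-! Nonnegative combinations of the toric g-contribution polynomials. -/

namespace Run7.H571.Toric

open Polynomial Finset
open Pool.Agent.Results.MP_141d57_co.GContribRealRooted

/-- `(-1)^d t^d g(1 - 1/t)` -/
noncomputable def Rp (d e j : ℕ) : ℝ[X] :=
  ∑ i ∈ range (d + 1), C ((-1) ^ i * cc d e j i) * X ^ i

theorem Rp_eq_T (d e j : ℕ) : Rp d e j = T d (fun i => cc d e j i / (d.choose i : ℝ)) := by
  unfold Rp T
  apply sum_congr rfl
  intro i hi
  rw [mem_range] at hi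
  have : (d.choose i : ℝ) ≠ 0 := by
    have := Nat.choose_pos (n := d) (k := i) (by omega)
    positivity
  congr 2
  field_simp

theorem pick_pos (d e j : ℕ) (he : e ≤ 1) (hj : 1 ≤ j) (hj2 : j ≤ d) :
    Pick (Rp d e j) (T d (Lam ((e : ℝ) + 1 / 2) d)) := by
  have hβ : (0 : ℝ) < (e : ℝ) + 1 / 2 := by positivity
  have h := pick_rho ((e : ℝ) + 1 / 2) hβ d (d - j) (by omega)
  have hr := rho_pos ((e : ℝ) + 1 / 2) hβ d (d - j) 0
  have hc := cc_pos d e j
  have h2 := h.smul (r := cc d e j 0 / rho ((e : ℝ) + 1 / 2) d (d - j) 0) (div_pos hc hr)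
  rw [← T_smul] at h2
  rw [Rp_eq_T]
  rw [T_congr' d (fun i => cc d e j i / (d.choose i : ℝ)) _ (fun i hi => ?_)]
  · exact h2
  · have h3 := cc_rho d e j he hj hj2 i hi
    have h4 : (d.choose i : ℝ) ≠ 0 := by
      have := Nat.choose_pos (n := d) (k := i) (by omega)
      positivity
    have h5 := hr.ne'
    generalize rho ((e : ℝ) + 1 / 2) d (d - j) 0 = r0 at h3 h5 ⊢
    generalize rho ((e : ℝ) + 1 / 2) d (d - j) i = r1 at h3 ⊢
    field_simp
    linear_combination h3

theorem Rp_tz (d e : ℕ) (he : e ≤ 1) : Rp d e 0 = C ((-1) ^ d) * R123.Toric.tz (2 * d + e) := by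
  unfold Rp R123.Toric.tz
  rw [show (2 * d + e) / 2 = d by omega]
  rw [← sum_range_reflect, mul_sum]
  apply sum_congr rfl
  intro k hk
  rw [mem_range] at hk
  rw [← mul_assoc, ← C_mul]
  have e1 : d + 1 - 1 - k = d - k := by omega
  rw [e1]
  congr 2
  unfold cc R123.Toric.A
  rw [show d + e + (d - k) - 0 = 2 * d + e - k - 0 by omega,
    show d + e + (d - k) = 2 * d + e - k by omega, show d - (d - k) = k by omega]
  have e2 : (-1 : ℝ) ^ d * (-1) ^ k = (-1) ^ (d - k) := by
    rw [← pow_add]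
    have : d + k = (d - k) + 2 * k := by omega
    rw [this, pow_add, pow_mul]
    norm_num
  rw [← mul_assoc, e2]

theorem Rp_eval_pos (d e : ℕ) (x : ℝ) (hx : x ≤ 0) : 0 < (Rp d e 0).eval x := by
  unfold Rp
  rw [eval_finsetSum]
  apply sum_pos'
  · intro i _
    simp only [eval_mul, eval_C, eval_pow, eval_X]
    have h1 : (-1 : ℝ) ^ i * cc d e 0 i * x ^ i = cc d e 0 i * (-x) ^ i := by
      rw [neg_pow x]
      ring
    rw [h1]
    apply mul_nonneg
    · unfold cc
      positivity
    · exact pow_nonneg (by linarith) _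
  · refine ⟨0, by simp, ?_⟩
    simpa using cc_pos d e 0

theorem pick_zero (d e : ℕ) (he : e ≤ 1) (hd : 1 ≤ d) :
    Pick (Rp d e 0) (T d (Lam ((e : ℝ) + 1 / 2) d)) := by
  have hβ : (0 : ℝ) < (e : ℝ) + 1 / 2 := by positivity
  have hne : Rp d e 0 ≠ 0 := by
    intro h
    have := Rp_eval_pos d e 0 le_rfl
    rw [h] at this
    simp at this
  have hs : (Rp d e 0).Splits := by
    rw [Rp_tz d e he]
    exact (R123.Toric.tz_splits _).C_mul _
  have hup : NoUp (Rp d e 0) := by
    intro z hz h0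
    obtain ⟨r, hr⟩ := real_of_splits hs hne z h0
    rw [hr, Complex.ofReal_im] at hz
    exact lt_irrefl _ hz
  have hdeg : 1 ≤ (Rp d e 0).natDegree := by
    have h1 : (Rp d e 0).coeff d ≠ 0 := by
      unfold Rp
      rw [finsetSum_coeff, sum_eq_single d]
      · rw [coeff_C_mul_X_pow, if_pos rfl]
        apply mul_ne_zero
        · exact pow_ne_zero _ (by norm_num)
        · unfold cc
          rw [Nat.sub_self, Nat.choose_zero_right, mul_one]
          have := catalan_pos (d + e + d - 0)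
          positivity
      · intro k _ hk
        rw [coeff_C_mul_X_pow, if_neg (fun h => hk h.symm)]
      · intro h
        exact absurd (mem_range.mpr (by omega)) h
    exact hd.trans (le_natDegree_of_ne_zero h1)
  have h1 := lem4 (Rp d e 0) hup hdeg (fun x hx => (Rp_eval_pos d e x hx).ne')
  have h2 := pick_add_self h1 ((d : ℝ) + e + 1)
  have hL := Lam_pos ((e : ℝ) + 1 / 2) hβ d 0
  have h3 : X * derivative (Rp d e 0) + C ((d : ℝ) + e + 1) * Rp d e 0 =
      C (((d + e + 1 : ℝ) * cc d e 0 0) / Lam ((e : ℝ) + 1 / 2) d 0) *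
        T d (Lam ((e : ℝ) + 1 / 2) d) := by
    rw [Rp_eq_T, T_theta, ← T_smul, ← T_add, ← T_smul]
    apply T_congr'
    intro i hi
    have h3 := cc_Lam d e he i hi
    have h4 : (d.choose i : ℝ) ≠ 0 := by
      have := Nat.choose_pos (n := d) (k := i) (by omega)
      positivity
    have h5 := hL.ne'
    generalize Lam ((e : ℝ) + 1 / 2) d 0 = L0 at h3 h5 ⊢
    generalize Lam ((e : ℝ) + 1 / 2) d i = L1 at h3 ⊢
    field_simp
    linear_combination h3
  rw [h3] at h2
  intro z hz
  have h4 := h2 z hz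
  have hκ : 0 < ((d + e + 1 : ℝ) * cc d e 0 0) / Lam ((e : ℝ) + 1 / 2) d 0 := by
    have := cc_pos d e 0
    positivity
  rw [map_mul, aeval_C, map_mul] at h4
  simp only [Complex.coe_algebraMap, Complex.conj_ofReal] at h4
  rw [mul_left_comm, Complex.im_ofReal_mul] at h4
  by_contra h5
  push Not at h5
  nlinarith

theorem pick_all (d e j : ℕ) (he : e ≤ 1) (hd : 1 ≤ d) (hj : j ≤ d) :
    Pick (Rp d e j) (T d (Lam ((e : ℝ) + 1 / 2) d)) := by
  rcases Nat.eq_zero_or_pos j with h | h
  · subst h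
    exact pick_zero d e he hd
  · exact pick_pos d e j he h hj

theorem noUp_comb (d e : ℕ) (he : e ≤ 1) (hd : 1 ≤ d) (γ : ℕ → ℝ)
    (h0 : ∀ j, j ≤ d → 0 ≤ γ j) (h1 : ∃ j, j ≤ d ∧ γ j ≠ 0) :
    NoUp (∑ j ∈ range (d + 1), C (γ j) * Rp d e j) := by
  intro z hz hs
  obtain ⟨j0, hj0, hγ⟩ := h1
  have h2 : 0 < (aeval z (∑ j ∈ range (d + 1), C (γ j) * Rp d e j) *
      (starRingEnd ℂ) (aeval z (T d (Lam ((e : ℝ) + 1 / 2) d)))).im := by
    rw [map_sum, sum_mul, Complex.im_sum]
    apply sum_pos'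
    · intro j hj
      rw [mem_range] at hj
      rw [map_mul, aeval_C, mul_assoc]
      simp only [Complex.coe_algebraMap]
      rw [Complex.im_ofReal_mul]
      exact mul_nonneg (h0 j (by omega)) (pick_all d e j he hd (by omega) z hz).le
    · refine ⟨j0, mem_range.mpr (by omega), ?_⟩
      rw [map_mul, aeval_C, mul_assoc]
      simp only [Complex.coe_algebraMap]
      rw [Complex.im_ofReal_mul]
      exact mul_pos (lt_of_le_of_ne (h0 j0 hj0) hγ.symm) (pick_all d e j0 he hd hj0 z hz)
  rw [hs, zero_mul, Complex.zero_im] at h2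
  exact lt_irrefl _ h2

theorem noUp_real {p : ℝ[X]} (hp : NoUp p) (z : ℂ) (hz : z.im ≠ 0) : aeval z p ≠ 0 := by
  rcases lt_or_gt_of_ne hz with h | h
  · intro h0
    have h2 : aeval ((starRingEnd ℂ) z) p = 0 := by
      rw [Polynomial.aeval_conj, h0, map_zero]
    refine hp _ ?_ h2
    rw [Complex.conj_im]
    linarith
  · exact hp z h

theorem gPoly_sub (d e j : ℕ) (he : e ≤ 1) (hj : j ≤ d) (z t : ℂ) (h : t * (z - 1) = -1) :
    t ^ d * aeval z (gPoly (2 * d + e) j) = (-1) ^ d * aeval t (Rp d e j) := by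
  rw [gPoly_aeval (2 * d + e) j (by omega) z]
  rw [show (2 * d + e) / 2 = d by omega]
  unfold Rp
  rw [map_sum, mul_sum, mul_sum, ← sum_range_reflect]
  apply sum_congr rfl
  intro k hk
  rw [mem_range] at hk
  have e1 : d + 1 - 1 - k = d - k := by omega
  rw [e1]
  unfold cc
  rw [show 2 * d + e - (d - k) - j = d + e + k - j by omega,
    show 2 * d + e - (d - k) = d + e + k by omega]
  have e2 : t ^ d * (z - 1) ^ (d - k) = (-1) ^ d * ((-1) ^ k * t ^ k) := by
    have e3 : t ^ d = t ^ k * t ^ (d - k) := by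
      rw [← pow_add]
      congr 1
      omega
    have e4 : (-1 : ℂ) ^ d * (-1) ^ k = (-1) ^ (d - k) := by
      rw [← pow_add]
      have : d + k = (d - k) + 2 * k := by omega
      rw [this, pow_add, pow_mul]
      norm_num
    rw [e3, mul_assoc, ← mul_pow, h, ← mul_assoc, e4]
    ring
  simp only [map_mul, map_pow, aeval_X, map_neg, map_one, map_natCast]
  linear_combination (((catalan (d + e + k - j) * (d + e + k).choose (d - k) : ℕ) : ℂ)) * e2

theorem comb_realRooted (n : ℕ) (γ : ℕ → ℝ) (h0 : ∀ j, j ≤ n / 2 → 0 ≤ γ j)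
    (h1 : ∃ j, j ≤ n / 2 ∧ γ j ≠ 0) :
    RealRooted (∑ j ∈ range (n / 2 + 1), C (γ j) * gPoly n j) := by
  have hpos : 0 < (∑ j ∈ range (n / 2 + 1), C (γ j) * gPoly n j).eval 1 := by
    rw [eval_finsetSum]
    apply sum_pos'
    · intro j hj
      rw [mem_range] at hj
      rw [eval_mul, eval_C]
      exact mul_nonneg (h0 j (by omega)) (gPoly_one n j (by omega)).le
    · obtain ⟨j, hj, hγ⟩ := h1
      refine ⟨j, mem_range.mpr (by omega), ?_⟩
      rw [eval_mul, eval_C]
      exact mul_pos (lt_of_le_of_ne (h0 j hj) hγ.symm) (gPoly_one n j hj)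
  refine ⟨fun h => by rw [h] at hpos; simp at hpos, fun z hz => ?_⟩
  obtain ⟨d, e, he, hde⟩ : ∃ d e, e ≤ 1 ∧ n = 2 * d + e := ⟨n / 2, n % 2, by omega, by omega⟩
  have hd2 : n / 2 = d := by omega
  rw [hd2] at hpos hz h0 h1
  by_contra him
  rcases Nat.eq_zero_or_pos d with hd | hd
  · -- `n = 1`
    subst hd
    rw [zero_add, sum_range_one] at hz hpos
    have h3 : gPoly n 0 = C ((catalan n : ℕ) : ℝ) := by
      rw [gPoly_eq n 0 (by omega), hd2]
      simp
    rw [h3] at hz hpos
    rw [← C_mul, aeval_C] at hz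
    rw [← C_mul, eval_C] at hpos
    simp only [Complex.coe_algebraMap] at hz
    have : γ 0 * ((catalan n : ℕ) : ℝ) = 0 := by exact_mod_cast hz
    linarith
  · have hy : z - 1 ≠ 0 := by
      intro h
      apply him
      have : z = 1 := by linear_combination h
      rw [this, Complex.one_im]
    obtain ⟨t, ht⟩ : ∃ t : ℂ, t = -(1 / (z - 1)) := ⟨_, rfl⟩
    have htz : t * (z - 1) = -1 := by
      rw [ht]
      field_simp
    have htim : t.im ≠ 0 := by
      intro h
      apply him
      have htr : t = (t.re : ℂ) := by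
        apply Complex.ext
        · simp
        · simpa using h
      have ht0 : t ≠ 0 := by
        intro h5
        rw [h5] at htz
        simp at htz
      have hz2 : z = ((1 - 1 / t.re : ℝ) : ℂ) := by
        push_cast
        rw [← htr]
        field_simp
        linear_combination htz
      rw [hz2, Complex.ofReal_im]
    have h4 := noUp_real (noUp_comb d e he hd γ h0 h1) t htim
    apply h4
    have h5 : (-1 : ℂ) ^ d * aeval t (∑ j ∈ range (d + 1), C (γ j) * Rp d e j) =
        t ^ d * aeval z (∑ j ∈ range (d + 1), C (γ j) * gPoly n j) := by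
      rw [map_sum, map_sum, mul_sum, mul_sum]
      apply sum_congr rfl
      intro j hj
      rw [mem_range] at hj
      have h6 := gPoly_sub d e j he (by omega) z t htz
      rw [← hde] at h6
      rw [map_mul, map_mul, aeval_C, aeval_C]
      linear_combination (-(algebraMap ℝ ℂ (γ j))) * h6
    rw [hz, mul_zero] at h5
    rcases mul_eq_zero.mp h5 with h6 | h6
    · exact absurd h6 (pow_ne_zero _ (by norm_num))
    · exact h6

end Run7.H571.Toric
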