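import Mathlib

/-! Pick functions and the operators `X d/dX + σ`. -/

namespace Run7.H571.Toric

open Polynomial Finset

/-- no zeros in the open upper half plane -/
def NoUp (p : ℝ[X]) : Prop := ∀ z : ℂ, 0 < z.im → aeval z p ≠ 0

/-- `A/B` maps the upper half plane to itself -/
def Pick (A B : ℝ[X]) : Prop :=
  ∀ z : ℂ, 0 < z.im → 0 < (aeval z A * (starRingEnd ℂ) (aeval z B)).im

/-- `X d/dX + σ` -/
noncomputable def O (σ : ℝ) (p : ℝ[X]) : ℝ[X] := X * derivative p + C σ * p

theorem aeval_O (σ : ℝ) (p : ℝ[X]) (z : ℂ) :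
    aeval z (O σ p) = z * aeval z (derivative p) + (σ : ℂ) * aeval z p := by
  unfold O
  simp

theorem aeval_map (p : ℝ[X]) (z : ℂ) : aeval z p = (p.map (algebraMap ℝ ℂ)).eval z := by
  rw [eval_map_algebraMap]

theorem aeval_der (p : ℝ[X]) (z : ℂ) :
    aeval z (derivative p) = (derivative (p.map (algebraMap ℝ ℂ))).eval z := by
  rw [derivative_map, eval_map_algebraMap]

theorem logder (p : ℝ[X]) (z : ℂ) (hz : aeval z p ≠ 0) :
    aeval z (derivative p) = aeval z p *
      ((p.map (algebraMap ℝ ℂ)).roots.map fun w => 1 / (z - w)).sum := by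
  have h := (IsAlgClosed.splits (p.map (algebraMap ℝ ℂ))).eval_derivative_div_eval_of_ne_zero
    (x := z) (by rw [← aeval_map]; exact hz)
  rw [← h, ← aeval_map, ← aeval_der]
  field_simp

theorem im_inv_neg (z w : ℂ) (h : w.im < z.im) : (1 / (z - w)).im < 0 := by
  rw [one_div, Complex.inv_im]
  have h1 : (z - w) ≠ 0 := by
    intro h2
    have h3 := congrArg Complex.im h2
    simp at h3
    linarith
  have h2 : 0 < Complex.normSq (z - w) := Complex.normSq_pos.mpr h1
  rw [Complex.sub_im]
  apply div_neg_of_neg_of_pos _ h2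
  linarith

theorem im_sum_le (z : ℂ) (M : Multiset ℂ) (h : ∀ w ∈ M, w.im < z.im) :
    ((M.map fun w => 1 / (z - w)).sum).im ≤ 0 := by
  induction M using Multiset.induction with
  | empty => simp
  | cons a s ih =>
    rw [Multiset.map_cons, Multiset.sum_cons, Complex.add_im]
    have h1 := im_inv_neg z a (h a (Multiset.mem_cons_self a s))
    have h2 := ih fun w hw => h w (Multiset.mem_cons_of_mem hw)
    linarith

theorem root_im (p : ℝ[X]) (hp : NoUp p) (w : ℂ) (hw : w ∈ (p.map (algebraMap ℝ ℂ)).roots) :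
    w.im = 0 := by
  have h1 : aeval w p = 0 := by
    rw [aeval_map]
    exact (mem_roots'.mp hw).2
  rcases lt_trichotomy w.im 0 with h | h | h
  · exfalso
    have h2 : aeval ((starRingEnd ℂ) w) p = 0 := by
      rw [Polynomial.aeval_conj, h1, map_zero]
    refine hp _ ?_ h2
    rw [Complex.conj_im]
    linarith
  · exact h
  · exact absurd h1 (hp w h)

theorem NoUp.O {p : ℝ[X]} (hp : NoUp p) {σ : ℝ} (hσ : 0 < σ) : NoUp (O σ p) := by
  intro z hz h0
  rw [aeval_O, logder p z (hp z hz)] at h0
  set S := ((p.map (algebraMap ℝ ℂ)).roots.map fun w => 1 / (z - w)).sum with hS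
  have hz0 : z ≠ 0 := by
    intro h
    rw [h] at hz
    simp at hz
  have h1 : aeval z p * (z * S + σ) = 0 := by linear_combination h0
  have h2 : z * S + σ = 0 := by
    rcases mul_eq_zero.mp h1 with h | h
    · exact absurd h (hp z hz)
    · exact h
  have h3 : S + σ * (1 / (z - 0)) = 0 := by
    rw [sub_zero]
    field_simp
    linear_combination h2
  have h4 := im_inv_neg z 0 (by simpa using hz)
  have h5 : S.im ≤ 0 := by
    rw [hS]
    apply im_sum_le
    intro w hw
    rw [root_im p hp w hw]
    exact hz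
  have h6 := congrArg Complex.im h3
  rw [Complex.add_im, Complex.im_ofReal_mul] at h6
  simp only [Complex.zero_im] at h6
  nlinarith

theorem Pick.noUp {A B : ℝ[X]} (h : Pick A B) : NoUp B := by
  intro z hz h0
  have := h z hz
  rw [h0] at this
  simp at this

theorem Pick.noUp_left {A B : ℝ[X]} (h : Pick A B) : NoUp A := by
  intro z hz h0
  have := h z hz
  rw [h0] at this
  simp at this

theorem pick_sub {A B : ℝ[X]} (h : Pick A B) (r : ℝ) : NoUp (A - C r * B) := by
  intro z hz h0
  have h1 := h z hz
  have h2 : aeval z A = (r : ℂ) * aeval z B := by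
    have : aeval z A - (r : ℂ) * aeval z B = 0 := by
      simpa using h0
    linear_combination this
  rw [h2, mul_assoc, Complex.mul_conj, ← Complex.ofReal_mul, Complex.ofReal_im] at h1
  exact lt_irrefl _ h1

theorem quad_pos (a b c s : ℝ) (ha : 0 < a) (hs : 0 < s)
    (h : ∀ t, 0 < t → a * t ^ 2 + b * t + c ≠ 0) : 0 < a * s ^ 2 + b * s + c := by
  by_contra h1
  have h2 : a * s ^ 2 + b * s + c < 0 := lt_of_le_of_ne (not_lt.mp h1) (h s hs)
  have hD : 0 ≤ b ^ 2 - 4 * a * c := by nlinarith [sq_nonneg (2 * a * s + b)]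
  have h3 := Real.sq_sqrt hD
  set r := Real.sqrt (b ^ 2 - 4 * a * c) with hr
  have hr0 : 0 ≤ r := Real.sqrt_nonneg _
  have h4 : 2 * a * s + b < r := by
    by_contra h5
    push Not at h5
    nlinarith
  have h5 : s < (r - b) / (2 * a) := by
    rw [lt_div_iff₀ (by positivity)]
    linarith
  apply h ((r - b) / (2 * a)) (by linarith)
  field_simp
  nlinarith

theorem Pick.O {A B : ℝ[X]} (h : Pick A B) {σ : ℝ} (hσ : 0 < σ) : Pick (O σ A) (O σ B) := by
  intro z hz
  have hq : ∀ s : ℝ, (aeval z (Toric.O s A) * (starRingEnd ℂ) (aeval z (Toric.O s B))).im =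
      (aeval z A * (starRingEnd ℂ) (aeval z B)).im * s ^ 2 +
      ((aeval z A * (starRingEnd ℂ) (z * aeval z (derivative B))).im +
        (z * aeval z (derivative A) * (starRingEnd ℂ) (aeval z B)).im) * s +
      (z * aeval z (derivative A) * (starRingEnd ℂ) (z * aeval z (derivative B))).im := by
    intro s
    rw [aeval_O, aeval_O]
    simp only [map_add, map_mul, Complex.conj_ofReal]
    simp only [Complex.add_im, Complex.mul_im, Complex.add_re, Complex.mul_re, Complex.ofReal_re,
      Complex.ofReal_im]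
    ring
  rw [hq]
  apply quad_pos _ _ _ _ (h z hz) hσ
  intro s hs
  rw [← hq]
  intro h0
  have hB := h.noUp.O hs z hz
  set U := aeval z (Toric.O s A) with hU
  set V := aeval z (Toric.O s B) with hV
  have hn : (Complex.normSq V : ℂ) ≠ 0 := by
    simpa using hB
  have h1 : U = (((U * (starRingEnd ℂ) V).re / Complex.normSq V : ℝ) : ℂ) * V := by
    have h2 : U * (starRingEnd ℂ) V = (((U * (starRingEnd ℂ) V).re : ℝ) : ℂ) := by
      apply Complex.ext
      · simp
      · rw [h0, Complex.ofReal_im]
    have h3 : (starRingEnd ℂ) V ≠ 0 := by simpa using hB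
    apply mul_right_cancel₀ h3
    rw [mul_assoc, Complex.mul_conj]
    push_cast
    rw [div_mul_cancel₀ _ hn]
    exact h2
  set r := (U * (starRingEnd ℂ) V).re / Complex.normSq V with hr
  have h4 := (pick_sub h r).O hs z hz
  apply h4
  have h5 : aeval z (Toric.O s (A - Polynomial.C r * B)) = U - r * V := by
    rw [hU, hV, aeval_O, aeval_O, aeval_O]
    simp
    ring
  rw [h5, h1]
  ring

theorem Pick.add {A A' B : ℝ[X]} (h : Pick A B) (h' : Pick A' B) : Pick (A + A') B := by
  intro z hz
  rw [map_add, add_mul, Complex.add_im]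
  linarith [h z hz, h' z hz]

theorem Pick.smul {A B : ℝ[X]} (h : Pick A B) {r : ℝ} (hr : 0 < r) : Pick (C r * A) B := by
  intro z hz
  have := h z hz
  rw [map_mul, aeval_C, mul_assoc]
  simp only [Complex.coe_algebraMap]
  rw [Complex.im_ofReal_mul]
  positivity

/-- the sum over real roots -/
theorem im_lem3 (z : ℂ) (hz : 0 < z.im) (M : Multiset ℂ) (h : ∀ w ∈ M, w.im = 0) :
    (z * (z * (M.map fun w => 1 / (z - w)).sum - (Multiset.card M : ℂ))).im ≤ 0 := by
  induction M using Multiset.induction with
  | empty => simp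
  | cons a s ih =>
    have h2 := ih fun w hw => h w (Multiset.mem_cons_of_mem hw)
    have ha := h a (Multiset.mem_cons_self a s)
    have hne : z - a ≠ 0 := by
      intro h3
      have h4 := congrArg Complex.im h3
      simp at h4
      linarith
    have h1 := im_inv_neg z a (by rw [ha]; exact hz)
    have e : z * (z * ((a ::ₘ s).map fun w => 1 / (z - w)).sum -
        (Multiset.card (a ::ₘ s) : ℂ)) = (a + a ^ 2 * (1 / (z - a))) +
        z * (z * (s.map fun w => 1 / (z - w)).sum - (Multiset.card s : ℂ)) := by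
      rw [Multiset.map_cons, Multiset.sum_cons, Multiset.card_cons]
      push_cast
      field_simp
      ring
    rw [e, Complex.add_im, Complex.add_im]
    have har : a = (a.re : ℂ) := by
      apply Complex.ext
      · simp
      · simpa using ha
    have e2 : (a ^ 2 * (1 / (z - a))).im = a.re ^ 2 * (1 / (z - a)).im := by
      have : a ^ 2 = ((a.re ^ 2 : ℝ) : ℂ) := by
        conv_lhs => rw [har]
        push_cast
        ring
      rw [this, Complex.im_ofReal_mul]
    rw [e2, ha]
    nlinarith [sq_nonneg a.re]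

theorem lem3 (p : ℝ[X]) (hp : NoUp p) (d : ℕ) (hd : p.natDegree ≤ d) (z : ℂ) (hz : 0 < z.im) :
    0 ≤ (aeval z p * (starRingEnd ℂ)
      (z * (z * aeval z (derivative p) - d * aeval z p))).im := by
  rw [logder p z (hp z hz)]
  set M := (p.map (algebraMap ℝ ℂ)).roots with hM
  have hc : Multiset.card M = p.natDegree := by
    rw [hM, IsAlgClosed.card_roots_eq_natDegree, natDegree_map]
  have h1 := im_lem3 z hz M (fun w hw => root_im p hp w hw)
  set S := (M.map fun w => 1 / (z - w)).sum with hS
  rw [hc] at h1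
  have h2 : aeval z p * (starRingEnd ℂ) (z * (z * (aeval z p * S) - d * aeval z p)) =
      (Complex.normSq (aeval z p) : ℂ) * (starRingEnd ℂ) (z * (z * S - d)) := by
    rw [← Complex.mul_conj]
    simp only [map_mul, map_sub, map_natCast]
    ring
  rw [h2, Complex.im_ofReal_mul, Complex.conj_im]
  apply mul_nonneg (Complex.normSq_nonneg _)
  have h3 : z * (z * S - d) = z * (z * S - (p.natDegree : ℂ)) -
      (((d : ℝ) - p.natDegree : ℝ) : ℂ) * z := by
    push_cast
    ring
  rw [h3, Complex.sub_im, Complex.im_ofReal_mul]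
  have h4 : (0 : ℝ) ≤ (d : ℝ) - p.natDegree := by
    have : (p.natDegree : ℝ) ≤ d := by exact_mod_cast hd
    linarith
  nlinarith

theorem im_lem4 (z : ℂ) (hz : 0 < z.im) (M : Multiset ℂ) (h : ∀ w ∈ M, w.im = 0 ∧ 0 < w.re) :
    (z * (M.map fun w => 1 / (z - w)).sum).im ≤ 0 ∧
      (M ≠ 0 → (z * (M.map fun w => 1 / (z - w)).sum).im < 0) := by
  induction M using Multiset.induction with
  | empty => simp
  | cons a s ih =>
    have h2 := (ih fun w hw => h w (Multiset.mem_cons_of_mem hw)).1
    obtain ⟨ha, hap⟩ := h a (Multiset.mem_cons_self a s)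
    have hne : z - a ≠ 0 := by
      intro h3
      have h4 := congrArg Complex.im h3
      simp at h4
      linarith
    have h1 := im_inv_neg z a (by rw [ha]; exact hz)
    have e : z * ((a ::ₘ s).map fun w => 1 / (z - w)).sum = (1 + a * (1 / (z - a))) +
        z * (s.map fun w => 1 / (z - w)).sum := by
      rw [Multiset.map_cons, Multiset.sum_cons]
      field_simp
      ring
    have har : a = (a.re : ℂ) := by
      apply Complex.ext
      · simp
      · simpa using ha
    have e2 : (a * (1 / (z - a))).im = a.re * (1 / (z - a)).im := by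
      conv_lhs => rw [show a * (1 / (z - a)) = (a.re : ℂ) * (1 / (z - a)) by rw [← har]]
      rw [Complex.im_ofReal_mul]
    have key : (z * ((a ::ₘ s).map fun w => 1 / (z - w)).sum).im < 0 := by
      rw [e, Complex.add_im, Complex.add_im, e2, Complex.one_im]
      nlinarith
    exact ⟨key.le, fun _ => key⟩

theorem lem4 (p : ℝ[X]) (hp : NoUp p) (hd : 1 ≤ p.natDegree)
    (hr : ∀ x : ℝ, x ≤ 0 → p.eval x ≠ 0) : Pick p (X * derivative p) := by
  intro z hz
  have h0 := hp z hz
  rw [map_mul, aeval_X, logder p z h0]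
  set M := (p.map (algebraMap ℝ ℂ)).roots with hM
  have hc : Multiset.card M = p.natDegree := by
    rw [hM, IsAlgClosed.card_roots_eq_natDegree, natDegree_map]
  have h1 := (im_lem4 z hz M (fun w hw => ?_)).2 (by
    intro h
    rw [h] at hc
    simp at hc
    omega)
  · set S := (M.map fun w => 1 / (z - w)).sum with hS
    have h2 : aeval z p * (starRingEnd ℂ) (z * (aeval z p * S)) =
        (Complex.normSq (aeval z p) : ℂ) * (starRingEnd ℂ) (z * S) := by
      rw [← Complex.mul_conj]
      simp only [map_mul]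
      ring
    rw [h2, Complex.im_ofReal_mul, Complex.conj_im]
    have h3 : 0 < Complex.normSq (aeval z p) := Complex.normSq_pos.mpr h0
    nlinarith
  · have hw0 := root_im p hp w hw
    refine ⟨hw0, ?_⟩
    by_contra h2
    push Not at h2
    apply hr w.re h2
    have h3 : aeval w p = 0 := by
      rw [aeval_map]
      exact (mem_roots'.mp hw).2
    have har : w = (w.re : ℂ) := by
      apply Complex.ext
      · simp
      · simpa using hw0
    rw [har] at h3
    have h4 : aeval (w.re : ℂ) p = ((p.eval w.re : ℝ) : ℂ) := aeval_ofReal p w.re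
    rw [h4] at h3
    exact_mod_cast h3

end Run7.H571.Toric
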