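import Pool.Agent.Run7.h571.ToricPick

/-! The polynomials `T d φ = ∑ φ(k) (-1)^k binom(d,k) X^k` and Pick relations between them. -/

namespace Run7.H571.Toric

open Polynomial Finset

noncomputable def T (d : ℕ) (φ : ℕ → ℝ) : ℝ[X] :=
  ∑ k ∈ range (d + 1), C (φ k * ((-1) ^ k * (d.choose k : ℝ))) * X ^ k

theorem T_congr (d : ℕ) (φ ψ : ℕ → ℝ) (h : ∀ k, φ k = ψ k) : T d φ = T d ψ := by
  have : φ = ψ := funext h
  rw [this]

theorem T_add (d : ℕ) (φ ψ : ℕ → ℝ) : T d (fun k => φ k + ψ k) = T d φ + T d ψ := by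
  unfold T
  rw [← sum_add_distrib]
  apply sum_congr rfl
  intro k _
  rw [← add_mul, ← C_add]
  congr 2
  ring

theorem T_smul (d : ℕ) (c : ℝ) (φ : ℕ → ℝ) : T d (fun k => c * φ k) = C c * T d φ := by
  unfold T
  rw [mul_sum]
  apply sum_congr rfl
  intro k _
  beta_reduce
  rw [← mul_assoc (C c), ← C_mul]
  congr 2
  ring

theorem T_theta (d : ℕ) (φ : ℕ → ℝ) :
    X * derivative (T d φ) = T d (fun k => (k : ℝ) * φ k) := by
  unfold T
  rw [derivative_sum, mul_sum]
  apply sum_congr rfl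
  intro k _
  rw [derivative_C_mul_X_pow]
  rcases Nat.eq_zero_or_pos k with h | h
  · subst h
    simp
  · obtain ⟨m, rfl⟩ : ∃ m, k = m + 1 := ⟨k - 1, by omega⟩
    simp only [Nat.add_sub_cancel, map_mul, map_natCast, Nat.cast_add, Nat.cast_one, map_add,
      map_one]
    ring

theorem T_O (d : ℕ) (φ : ℕ → ℝ) (σ : ℝ) :
    O σ (T d φ) = T d (fun k => ((k : ℝ) + σ) * φ k) := by
  unfold O
  rw [T_theta, ← T_smul, ← T_add]
  apply T_congr
  intro k
  ring

theorem T_natDegree (d : ℕ) (φ : ℕ → ℝ) : (T d φ).natDegree ≤ d := by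
  unfold T
  apply natDegree_sum_le_of_forall_le
  intro k hk
  rw [mem_range] at hk
  exact (natDegree_C_mul_X_pow_le _ _).trans (by omega)

theorem T_one (d : ℕ) : T d (fun _ => 1) = (1 - X) ^ d := by
  unfold T
  rw [sub_eq_add_neg, add_comm (1 : ℝ[X]) (-X), add_pow]
  apply sum_congr rfl
  intro k _
  rw [neg_pow]
  simp only [one_mul, map_mul, map_pow, map_neg, map_one, map_natCast, one_pow, mul_one]
  ring

/-- `X (X d/dX - d) T(φ) = T(k φ(k-1))` -/
theorem T_shift (d : ℕ) (φ : ℕ → ℝ) :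
    X * (X * derivative (T d φ) - C (d : ℝ) * T d φ) = T d (fun k => (k : ℝ) * φ (k - 1)) := by
  rw [T_theta, ← T_smul]
  unfold T
  rw [← sum_sub_distrib, mul_sum]
  rw [sum_range_succ, sum_range_succ' (n := d) (f := fun k =>
    C ((k : ℝ) * φ (k - 1) * ((-1) ^ k * (d.choose k : ℝ))) * X ^ k)]
  simp only [Nat.cast_zero, zero_mul, map_zero, add_zero, Nat.add_sub_cancel]
  rw [sub_self, mul_zero, add_zero]
  apply sum_congr rfl
  intro k hk
  rw [mem_range] at hk
  have h1 : (((k + 1 : ℕ) : ℝ)) * (d.choose (k + 1) : ℝ) = ((d : ℝ) - k) * (d.choose k : ℝ) := by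
    have h2 := Nat.choose_succ_right_eq d k
    have h3 : ((d.choose (k + 1) * (k + 1) : ℕ) : ℝ) = ((d.choose k * (d - k) : ℕ) : ℝ) := by
      rw [h2]
    push_cast [Nat.cast_sub hk.le] at h3 ⊢
    linarith
  rw [← sub_mul, ← C_sub, pow_succ X k, ← mul_assoc, mul_comm X, mul_assoc, mul_comm X,
    ← pow_succ]
  congr 2
  rw [pow_succ (-1 : ℝ) k]
  linear_combination (φ k * (-1 : ℝ) ^ k) * h1

theorem pick_prod (d : ℕ) (φ ψ : ℕ → ℝ) (h : Pick (T d φ) (T d ψ)) (σ : ℕ → ℝ) (m : ℕ)
    (hσ : ∀ i, i < m → 0 < σ i) :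
    Pick (T d (fun k => (∏ i ∈ range m, ((k : ℝ) + σ i)) * φ k))
      (T d (fun k => (∏ i ∈ range m, ((k : ℝ) + σ i)) * ψ k)) := by
  induction m with
  | zero => simpa using h
  | succ m ih =>
    have h1 := (ih fun i hi => hσ i (by omega)).O (hσ m (by omega))
    rw [T_O, T_O] at h1
    rw [T_congr d (fun k => (∏ i ∈ range (m + 1), ((k : ℝ) + σ i)) * φ k)
      (fun k => ((k : ℝ) + σ m) * ((∏ i ∈ range m, ((k : ℝ) + σ i)) * φ k))
      (fun k => by rw [prod_range_succ]; ring),
      T_congr d (fun k => (∏ i ∈ range (m + 1), ((k : ℝ) + σ i)) * ψ k)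
      (fun k => ((k : ℝ) + σ m) * ((∏ i ∈ range m, ((k : ℝ) + σ i)) * ψ k))
      (fun k => by rw [prod_range_succ]; ring)]
    exact h1

theorem pick_base (d : ℕ) (hd : 1 ≤ d) : Pick (T d (fun _ => 1)) (T d (fun k => (k : ℝ) * 1)) := by
  intro z hz
  rw [← T_theta, T_one]
  obtain ⟨e, rfl⟩ : ∃ e, d = e + 1 := ⟨d - 1, by omega⟩
  have h1 : derivative ((1 - X : ℝ[X]) ^ (e + 1)) = -(C ((e : ℝ) + 1) * (1 - X) ^ e) := by
    rw [derivative_pow_succ]
    simp
  rw [h1]
  have h2 : aeval z ((1 - X : ℝ[X]) ^ (e + 1)) * (starRingEnd ℂ)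
      (aeval z (X * -(C ((e : ℝ) + 1) * (1 - X : ℝ[X]) ^ e))) =
      (((e : ℝ) + 1) * Complex.normSq ((1 - z) ^ e) : ℝ) *
        (-(1 - z) * (starRingEnd ℂ) z) := by
    push_cast
    rw [← Complex.mul_conj]
    simp only [map_mul, map_neg, map_pow, map_sub, map_one, aeval_X, map_add, map_natCast]
    ring
  rw [h2, Complex.im_ofReal_mul]
  have h3 : (-(1 - z) * (starRingEnd ℂ) z).im = z.im := by
    simp [Complex.mul_im]
    ring
  rw [h3]
  have h4 : (1 - z) ^ e ≠ 0 := by
    apply pow_ne_zero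
    intro h
    have := congrArg Complex.im h
    simp at this
    linarith
  have h5 : 0 < Complex.normSq ((1 - z) ^ e) := Complex.normSq_pos.mpr h4
  positivity

/-- class C for products -/
theorem classC (d : ℕ) (hd : 1 ≤ d) (σ : ℕ → ℝ) (m : ℕ) (hσ : ∀ i, i < m → 0 < σ i) :
    Pick (T d (fun k => ∏ i ∈ range m, ((k : ℝ) + σ i)))
      (T d (fun k => (k : ℝ) * ∏ i ∈ range m, ((k : ℝ) + σ i))) := by
  have h := pick_prod d _ _ (pick_base d hd) σ m hσ
  rw [T_congr d (fun k => (∏ i ∈ range m, ((k : ℝ) + σ i)) * 1)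
    (fun k => ∏ i ∈ range m, ((k : ℝ) + σ i)) (fun k => by ring),
    T_congr d (fun k => (∏ i ∈ range m, ((k : ℝ) + σ i)) * ((k : ℝ) * 1))
    (fun k => (k : ℝ) * ∏ i ∈ range m, ((k : ℝ) + σ i)) (fun k => by ring)] at h
  exact h

/-- from `Pick p (D p)` to `Pick p ((D+σ) p)` -/
theorem pick_add_self {A B : ℝ[X]} (h : Pick A B) (σ : ℝ) : Pick A (B + C σ * A) := by
  intro z hz
  have h1 := h z hz
  have h2 : aeval z A * (starRingEnd ℂ) (aeval z (B + C σ * A)) =
      aeval z A * (starRingEnd ℂ) (aeval z B) + ((σ * Complex.normSq (aeval z A) : ℝ) : ℂ) := by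
    push_cast
    rw [← Complex.mul_conj]
    simp
    ring
  rw [h2, Complex.add_im, Complex.ofReal_im, add_zero]
  exact h1

/-- the base pairs -/
theorem pick_pair (d : ℕ) (hd : 1 ≤ d) (a : ℝ) (ha : 0 < a) (r : ℕ) :
    Pick (T d (fun k => ∏ m ∈ range r, ((k : ℝ) + (a + 2 + m))))
      (T d (fun k => ((k : ℝ) + a) * ∏ m ∈ range r, ((k : ℝ) + (a + 1 + m)))) := by
  cases r with
  | zero =>
    have h := pick_add_self (pick_base d hd) a
    rw [← T_smul, ← T_add] at h
    simpa using h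
  | succ r =>
    have hσ : ∀ i, i < r → 0 < a + 2 + (i : ℝ) := fun i _ => by positivity
    have hC := classC d hd (fun m => a + 2 + m) r hσ
    have hC' := classC d hd (fun m => a + 2 + m) (r + 1) (fun i _ => by positivity)
    have hup := hC'.noUp_left
    set H : ℕ → ℝ := fun k => ∏ m ∈ range r, ((k : ℝ) + (a + 2 + m)) with hH
    set F : ℕ → ℝ := fun k => ∏ m ∈ range (r + 1), ((k : ℝ) + (a + 2 + m)) with hF
    have hFH : ∀ k, F k = ((k : ℝ) + (a + 2 + r)) * H k := by
      intro k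
      rw [hF, hH]
      beta_reduce
      rw [prod_range_succ]
      ring
    have hψ : ∀ k : ℕ, ((k : ℝ) + a) * ∏ m ∈ range (r + 1), ((k : ℝ) + (a + 1 + m)) =
        (k : ℝ) * F (k - 1) + (a * F k + (-(a * (r + 1))) * H k) := by
      intro k
      have h1 : ∏ m ∈ range (r + 1), ((k : ℝ) + (a + 1 + m)) = ((k : ℝ) + (a + 1)) * H k := by
        rw [prod_range_succ', hH]
        beta_reduce
        rw [mul_comm]
        congr 1
        · simp
        · apply prod_congr rfl
          intro m _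
          push_cast
          ring
      have h2 : (k : ℝ) * F (k - 1) = (k : ℝ) * (((k : ℝ) + (a + 1)) * H k) := by
        rcases Nat.eq_zero_or_pos k with h | h
        · subst h
          simp
        · rw [← h1, hF]
          beta_reduce
          congr 1
          apply prod_congr rfl
          intro m _
          rw [Nat.cast_sub h]
          push_cast
          ring
      rw [h1, h2, hFH]
      ring
    rw [T_congr d _ _ hψ, T_add, T_add, ← T_shift, T_smul, T_smul]
    intro z hz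
    have h3 := lem3 (T d F) hup d (T_natDegree d F) z hz
    have h4 := hC z hz
    have e1 : aeval z (T d F) = aeval z (T d (fun k => (k : ℝ) * H k)) +
        ((a + 2 + r : ℝ) : ℂ) * aeval z (T d H) := by
      rw [T_congr d F (fun k => (k : ℝ) * H k + (a + 2 + r) * H k)
        (fun k => by rw [hFH]; ring), T_add, T_smul]
      simp
    have e2 : (aeval z (T d F) * (starRingEnd ℂ) (aeval z (T d H))).im =
        -(aeval z (T d H) * (starRingEnd ℂ) (aeval z (T d (fun k => (k : ℝ) * H k)))).im := by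
      rw [e1]
      simp only [Complex.add_im, Complex.mul_im, Complex.add_re, Complex.mul_re,
        Complex.ofReal_re, Complex.ofReal_im, Complex.conj_re, Complex.conj_im]
      ring
    have e3 : aeval z (T d F) * (starRingEnd ℂ) (aeval z
        (X * (X * derivative (T d F) - C (d : ℝ) * T d F) +
          (C a * T d F + C (-(a * (r + 1))) * T d H))) =
        aeval z (T d F) * (starRingEnd ℂ)
          (z * (z * aeval z (derivative (T d F)) - d * aeval z (T d F))) +
        ((a * Complex.normSq (aeval z (T d F)) : ℝ) : ℂ) +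
        ((-(a * (r + 1)) : ℝ) : ℂ) *
          (aeval z (T d F) * (starRingEnd ℂ) (aeval z (T d H))) := by
      push_cast
      rw [← Complex.mul_conj]
      simp
      ring
    rw [e3, Complex.add_im, Complex.add_im, Complex.ofReal_im, Complex.im_ofReal_mul, e2]
    have h5 : 0 < a * ((r : ℝ) + 1) := by positivity
    nlinarith

end Run7.H571.Toric
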